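import Mathlib

/-!
# Orders of vanishing, Leibniz, and uniqueness of derivatives on an interval
-/

namespace Pool.Agent.GCI

open scoped ContDiff Topology
open Filter

/-- `f` vanishes at `t` to order at least `μ`. -/
def Van (μ : ℕ) (f : ℝ → ℝ) (t : ℝ) : Prop := ∀ j < μ, iteratedDeriv j f t = 0

theorem cd_of_top {F : Type*} [NormedAddCommGroup F] [NormedSpace ℝ F] {f : ℝ → F} {t : ℝ}
    (h : ContDiffAt ℝ ∞ f t) (j : ℕ) : ContDiffAt ℝ j f t := by
  refine h.of_le ?_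
  exact_mod_cast le_top

theorem leibniz {F : Type*} [NormedAddCommGroup F] [NormedSpace ℝ F] {φ : ℝ → ℝ} {f : ℝ → F}
    {t : ℝ} (hφ : ContDiffAt ℝ ∞ φ t) (hf : ContDiffAt ℝ ∞ f t) (n : ℕ) :
    iteratedDeriv n (fun s => φ s • f s) t = ∑ i ∈ Finset.range (n + 1),
      n.choose i • iteratedDeriv i φ t • iteratedDeriv (n - i) f t := by
  have h := iteratedDerivWithin_smul (n := n) (Set.mem_univ t) uniqueDiffOn_univ
    (cd_of_top hφ n).contDiffWithinAt (cd_of_top hf n).contDiffWithinAt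
  simp only [iteratedDerivWithin_univ] at h
  exact h

theorem Van.mul {μ : ℕ} {φ f : ℝ → ℝ} {t : ℝ} (hφ : ContDiffAt ℝ ∞ φ t)
    (hf : ContDiffAt ℝ ∞ f t) (h : Van μ f t) : Van μ (fun s => φ s * f s) t := by
  intro j hj
  have h1 := leibniz hφ hf j
  simp only [smul_eq_mul] at h1
  rw [h1]
  apply Finset.sum_eq_zero
  intro i hi
  rw [h (j - i) (by omega), mul_zero, smul_zero]

/-- A nontrivial interval has unique derivatives. -/
theorem uniqueDiff {I : Set ℝ} (hI : I.OrdConnected) (hI' : I.Nontrivial) :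
    UniqueDiffOn ℝ I := by
  apply uniqueDiffOn_convex hI.convex
  obtain ⟨x, hx, y, hy, hxy⟩ := hI'
  rcases lt_or_gt_of_ne hxy with h | h
  · have h1 : Set.Ioo x y ⊆ I := fun z hz => hI.out hx hy ⟨hz.1.le, hz.2.le⟩
    have h2 : Set.Ioo x y ⊆ interior I := by
      rw [← interior_Ioo (a := x) (b := y)]
      exact interior_mono h1
    exact (Set.nonempty_Ioo.2 h).mono h2
  · have h1 : Set.Ioo y x ⊆ I := fun z hz => hI.out hy hx ⟨hz.1.le, hz.2.le⟩
    have h2 : Set.Ioo y x ⊆ interior I := by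
      rw [← interior_Ioo (a := y) (b := x)]
      exact interior_mono h1
    exact (Set.nonempty_Ioo.2 h).mono h2

/-- Smooth functions which agree on the interval near a point have the same derivatives there. -/
theorem iteratedDeriv_congr {F : Type*} [NormedAddCommGroup F] [NormedSpace ℝ F] {I : Set ℝ}
    (hI : I.OrdConnected) (hI' : I.Nontrivial) {f g : ℝ → F} {t : ℝ} (ht : t ∈ I)
    (hf : ContDiffAt ℝ ∞ f t) (hg : ContDiffAt ℝ ∞ g t) (h : ∀ᶠ s in 𝓝 t, s ∈ I → f s = g s)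
    (j : ℕ) : iteratedDeriv j f t = iteratedDeriv j g t := by
  have hu := uniqueDiff hI hI'
  rw [← iteratedDerivWithin_eq_iteratedDeriv hu (cd_of_top hf j) ht,
    ← iteratedDerivWithin_eq_iteratedDeriv hu (cd_of_top hg j) ht]
  have h1 : f =ᶠ[𝓝[I] t] g := by
    rw [Filter.EventuallyEq, eventually_nhdsWithin_iff]
    exact h
  exact h1.iteratedDerivWithin_eq (h.self_of_nhds ht)

theorem Van.congr {I : Set ℝ} (hI : I.OrdConnected) (hI' : I.Nontrivial) {μ : ℕ} {f g : ℝ → ℝ}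
    {t : ℝ} (ht : t ∈ I) (hf : ContDiffAt ℝ ∞ f t) (hg : ContDiffAt ℝ ∞ g t)
    (h : ∀ᶠ s in 𝓝 t, s ∈ I → f s = g s) (hv : Van μ f t) : Van μ g t := by
  intro j hj
  rw [← iteratedDeriv_congr hI hI' ht hf hg h j]
  exact hv j hj

/-- Transfer of the order of vanishing along `A f = B h` with `A ≠ 0` at the point. -/
theorem Van.transfer {I : Set ℝ} (hI : I.OrdConnected) (hI' : I.Nontrivial) {μ : ℕ}
    {f h A B : ℝ → ℝ} {t : ℝ} (ht : t ∈ I) (hf : ContDiffAt ℝ ∞ f t) (hh : ContDiffAt ℝ ∞ h t)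
    (hA : ContDiffAt ℝ ∞ A t) (hB : ContDiffAt ℝ ∞ B t) (hA0 : A t ≠ 0)
    (he : ∀ᶠ s in 𝓝 t, s ∈ I → A s * f s = B s * h s) (hv : Van μ h t) : Van μ f t := by
  have h1 : Van μ (fun s => B s * h s) t := hv.mul hB hh
  have h2 : ContDiffAt ℝ ∞ (fun s => B s / A s) t := hB.div hA hA0
  have h3 : Van μ (fun s => (B s / A s) * h s) t := hv.mul h2 hh
  refine h3.congr hI hI' ht (h2.mul hh) hf ?_
  have h4 : ∀ᶠ s in 𝓝 t, A s ≠ 0 := hA.continuousAt.eventually_ne hA0
  filter_upwards [he, h4] with s hs hs' hsI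
  have h5 := hs hsI
  field_simp
  linarith

end Pool.Agent.GCI
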