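import Pool.Agent.GCI.Defs
import Pool.Agent.GCI.Tools

/-!
# Orders, smoothness, osculating curves
-/

namespace Pool.Agent.GCI

open scoped ContDiff Topology LinearAlgebra.Projectivization
open Filter

/-! ### Orders and totals -/

theorem Van.mono {μ μ' : ℕ} {f : ℝ → ℝ} {t : ℝ} (h : Van μ f t) (hm : μ' ≤ μ) : Van μ' f t :=
  fun j hj => h j (lt_of_lt_of_le hj hm)

theorem exists_of_le_iSup {ι : Type*} {p : ι → Prop} {F : ι → ℕ∞} {μ : ℕ} (hμ : 0 < μ)
    (h : (μ : ℕ∞) ≤ ⨆ (x : ι) (_ : p x), F x) : ∃ x, p x ∧ (μ : ℕ∞) ≤ F x := by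
  by_contra hcon
  push Not at hcon
  have h1 : (⨆ (x : ι) (_ : p x), F x) ≤ ((μ - 1 : ℕ) : ℕ∞) := by
    refine iSup₂_le fun x hx => ?_
    have h2 := hcon x hx
    refine Order.le_of_lt_add_one ?_
    have h3 : ((μ - 1 : ℕ) : ℕ∞) + 1 = μ := by
      have h4 : μ - 1 + 1 = μ := by omega
      exact_mod_cast h4
    rw [h3]
    exact h2
  have h2 := h.trans h1
  have h3 : μ ≤ μ - 1 := by exact_mod_cast h2
  omega

theorem le_ord {μ : ℕ} {f : ℝ → ℝ} {t : ℝ} (h : Van μ f t) : (μ : ℕ∞) ≤ ord f t :=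
  le_iSup₂_of_le μ h le_rfl

theorem van_of_le_ord {μ : ℕ} {f : ℝ → ℝ} {t : ℝ} (h : (μ : ℕ∞) ≤ ord f t) : Van μ f t := by
  rcases Nat.eq_zero_or_pos μ with h0 | h0
  · subst h0
    intro j hj
    omega
  · obtain ⟨μ', h1, h2⟩ := exists_of_le_iSup h0 h
    have h3 : μ ≤ μ' := by exact_mod_cast h2
    exact Van.mono h1 h3

theorem sum_le_of_total {D : Set ℝ} {M : ℝ → ℕ∞} {N : ℕ} (h : total D M ≤ N) (s : Finset ℝ)
    (hs : ∀ t ∈ s, t ∈ D) (μ : ℝ → ℕ) (hμ : ∀ t ∈ s, (μ t : ℕ∞) ≤ M t) : ∑ t ∈ s, μ t ≤ N := by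
  have h1 : ((∑ t ∈ s, μ t : ℕ) : ℕ∞) ≤ total D M := by
    push_cast
    exact (Finset.sum_le_sum hμ).trans (le_iSup₂_of_le s hs le_rfl)
  exact_mod_cast h1.trans h

theorem total_le {D : Set ℝ} {M : ℝ → ℕ∞} {N : ℕ}
    (h : ∀ (s : Finset ℝ) (μ : ℝ → ℕ), (∀ t ∈ s, t ∈ D) → (∀ t ∈ s, (μ t : ℕ∞) ≤ M t) →
      ∑ t ∈ s, μ t ≤ N) : total D M ≤ N := by
  classical
  refine iSup₂_le fun s hs => ?_
  by_cases htop : ∃ t ∈ s, M t = ⊤
  · obtain ⟨t, ht, htop⟩ := htop
    have h1 := h {t} (fun _ => N + 1) (by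
      intro t' ht'
      rw [Finset.mem_singleton] at ht'
      rw [ht']
      exact hs t ht) (by
      intro t' ht'
      rw [Finset.mem_singleton] at ht'
      rw [ht', htop]
      exact le_top)
    rw [Finset.sum_singleton] at h1
    omega
  · push Not at htop
    have h1 := h s (fun t => (M t).toNat) hs (fun t ht => by
      rw [ENat.natCast_toNat (htop t ht)])
    have h2 : ∑ t ∈ s, M t = ((∑ t ∈ s, (M t).toNat : ℕ) : ℕ∞) := by
      push_cast
      exact Finset.sum_congr rfl fun t ht => (ENat.natCast_toNat (htop t ht)).symm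
    rw [h2]
    exact_mod_cast h1

/-! ### Smoothness -/

theorem smooth_iter {F : Type*} [NormedAddCommGroup F] [NormedSpace ℝ F] {g : ℝ → F} {t : ℝ}
    (h : ContDiffAt ℝ ∞ g t) (j : ℕ) : ContDiffAt ℝ ∞ (iteratedDeriv j g) t := by
  induction j with
  | zero => rwa [iteratedDeriv_zero]
  | succ j ih =>
    rw [iteratedDeriv_succ]
    exact ih.derivWithin (by simp)

theorem iter_apply {n : ℕ} {g : ℝ → (Fin n → ℝ)} {t : ℝ}
    (hev : ∀ᶠ s in 𝓝 t, ContDiffAt ℝ ∞ g s) (j : ℕ)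
    (a : Fin n → ℝ) : iteratedDeriv j (fun s => ∑ i, a i * g s i) t =
      ∑ i, a i * iteratedDeriv j g t i := by
  have key : ∀ i ≤ j, ∀ᶠ s in 𝓝 t, iteratedDeriv i (fun s => ∑ i, a i * g s i) s =
      ∑ b, a b * iteratedDeriv i g s b := by
    intro i
    induction i with
    | zero =>
      intro _
      exact Eventually.of_forall fun s => by simp
    | succ i ih =>
      intro hi
      filter_upwards [(ih (by omega)).eventually_nhds, hev] with s hs hs'
      rw [iteratedDeriv_succ]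
      have h1 : iteratedDeriv i (fun s => ∑ i, a i * g s i) =ᶠ[𝓝 s]
          fun s => ∑ b, a b * iteratedDeriv i g s b := hs
      rw [h1.deriv_eq]
      have h2 : DifferentiableAt ℝ (iteratedDeriv i g) s :=
        (smooth_iter hs' i).differentiableAt (by simp)
      have h3 : HasDerivAt (iteratedDeriv i g) (iteratedDeriv (i + 1) g s) s := by
        rw [iteratedDeriv_succ]
        exact h2.hasDerivAt
      rw [hasDerivAt_pi] at h3
      have h4 : HasDerivAt (fun s => ∑ b, a b * iteratedDeriv i g s b)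
          (∑ b, a b * iteratedDeriv (i + 1) g s b) s :=
        HasDerivAt.fun_sum fun b _ => (h3 b).const_mul (a b)
      exact h4.deriv
  exact (key j le_rfl).self_of_nhds

theorem smooth_dt {k m : ℕ} {v : ℝ → Fin k → (Fin (k + m) → ℝ)} {t : ℝ}
    (h : ContDiffAt ℝ ∞ v t) (x : Fin m → (Fin (k + m) → ℝ)) :
    ContDiffAt ℝ ∞ (fun s => dt (v s) x) t := by
  have h1 : ∀ i c, ContDiffAt ℝ ∞ (fun s => Fin.append (v s) x c i) t := by
    intro i c
    obtain ⟨c, rfl⟩ := finSumFinEquiv.surjective c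
    rcases c with c | c
    · simp only [finSumFinEquiv_apply_left, Fin.append_left]
      have h2 := contDiffAt_pi.1 (contDiffAt_pi.1 h c) i
      exact h2
    · simp only [finSumFinEquiv_apply_right, Fin.append_right]
      exact contDiffAt_const
  unfold dt
  simp only [Matrix.det_apply', Matrix.of_apply]
  refine ContDiffAt.sum fun σ _ => ?_
  refine contDiffAt_const.mul ?_
  exact contDiffAt_prod fun i _ => h1 _ _

/-! ### Lifts -/

variable {n : ℕ} {I : Set ℝ} {c : ℝ → ℙ ℝ (Fin n → ℝ)} {t : ℝ} {g g' : ℝ → (Fin n → ℝ)}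

theorem IsLift.smooth (h : IsLift I c t g) : ContDiffAt ℝ ∞ g t := h.self_of_nhds.1

theorem IsLift.ne (h : IsLift I c t g) (ht : t ∈ I) : g t ≠ 0 := by
  obtain ⟨h1, _⟩ := h.self_of_nhds.2 ht
  exact h1

theorem IsLift.nhds (h : IsLift I c t g) : ∀ᶠ s in 𝓝 t, IsLift I c s g := h.eventually_nhds

/-- Two lifts are proportional. -/
theorem exists_factor (ht : t ∈ I) (h : IsLift I c t g) (h' : IsLift I c t g') :
    ∃ φ : ℝ → ℝ, ContDiffAt ℝ ∞ φ t ∧ φ t ≠ 0 ∧
      ∀ᶠ s in 𝓝 t, s ∈ I → g' s = φ s • g s := by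
  obtain ⟨N, hN⟩ : ∃ N : ℝ → ℝ, N = fun s => ∑ i, g s i * g t i := ⟨_, rfl⟩
  obtain ⟨P, hP⟩ : ∃ P : ℝ → ℝ, P = fun s => ∑ i, g' s i * g t i := ⟨_, rfl⟩
  have hN0 : N t ≠ 0 := by
    rw [hN]
    intro h0
    apply h.ne ht
    have h1 := (Finset.sum_eq_zero_iff_of_nonneg
      (fun i _ => mul_self_nonneg (g t i))).1 h0
    funext i
    exact mul_self_eq_zero.1 (h1 i (Finset.mem_univ i))
  have hNs : ContDiffAt ℝ ∞ N t := by
    rw [hN]
    exact ContDiffAt.sum fun i _ => (contDiffAt_pi.1 h.smooth i).mul contDiffAt_const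
  have hPs : ContDiffAt ℝ ∞ P t := by
    rw [hP]
    exact ContDiffAt.sum fun i _ => (contDiffAt_pi.1 h'.smooth i).mul contDiffAt_const
  have hev : ∀ᶠ s in 𝓝 t, s ∈ I → g' s = (P s / N s) • g s := by
    filter_upwards [h, h', hNs.continuousAt.eventually_ne hN0] with s hs hs' hs0 hsI
    obtain ⟨h1, h2⟩ := hs.2 hsI
    obtain ⟨h3, h4⟩ := hs'.2 hsI
    rw [h2, eq_comm, Projectivization.mk_eq_mk_iff'] at h4
    obtain ⟨a, ha⟩ := h4
    have h5 : P s = a * N s := by
      rw [hP, hN]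
      simp only [← ha, Pi.smul_apply, smul_eq_mul, Finset.mul_sum, mul_assoc]
    rw [h5, mul_div_assoc, div_self hs0, mul_one, ha]
  refine ⟨fun s => P s / N s, hPs.div hNs hN0, ?_, hev⟩
  intro h0
  have h1 := hev.self_of_nhds ht
  simp only at h0
  rw [h0, zero_smul] at h1
  exact h'.ne ht h1

theorem span_le (hI : I.OrdConnected) (hI' : I.Nontrivial) (ht : t ∈ I) (h : IsLift I c t g)
    (h' : IsLift I c t g') (k : ℕ) :
    Submodule.span ℝ (Set.range fun j : Fin k => iteratedDeriv (j : ℕ) g' t) ≤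
      Submodule.span ℝ (Set.range fun j : Fin k => iteratedDeriv (j : ℕ) g t) := by
  obtain ⟨φ, hφ, _, he⟩ := exists_factor ht h h'
  rw [Submodule.span_le]
  rintro _ ⟨j, rfl⟩
  have h1 : iteratedDeriv (j : ℕ) g' t = iteratedDeriv (j : ℕ) (fun s => φ s • g s) t :=
    iteratedDeriv_congr hI hI' ht h'.smooth (hφ.smul h.smooth) he j
  show iteratedDeriv (j : ℕ) g' t ∈ _
  rw [h1, leibniz hφ h.smooth]
  refine Submodule.sum_mem _ fun i hi => ?_
  have h2 := j.2
  have h3 : iteratedDeriv ((j : ℕ) - i) g t ∈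
      Submodule.span ℝ (Set.range fun j : Fin k => iteratedDeriv (j : ℕ) g t) :=
    Submodule.subset_span ⟨⟨(j : ℕ) - i, by omega⟩, rfl⟩
  rw [← Nat.cast_smul_eq_nsmul ℝ]
  exact Submodule.smul_mem _ _ (Submodule.smul_mem _ _ h3)

theorem osc_eq (hI : I.OrdConnected) (hI' : I.Nontrivial) (ht : t ∈ I) (h : IsLift I c t g)
    (k : ℕ) : osc k I c t =
      Submodule.span ℝ (Set.range fun j : Fin k => iteratedDeriv (j : ℕ) g t) := by
  apply le_antisymm
  · exact iSup₂_le fun g' h' => span_le hI hI' ht h h' k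
  · exact le_iSup₂_of_le g h le_rfl

/-! ### Convexity and independence -/

theorem Convex.indep {D : Set ℝ} (hn : 1 ≤ n) (hD : t ∈ D) (hc : Convex I D c)
    (h : IsLift I c t g) : LinearIndependent ℝ (fun j : Fin n => iteratedDeriv (j : ℕ) g t) := by
  by_contra hcon
  have h1 : ¬ IsUnit (Matrix.of fun (j i : Fin n) => iteratedDeriv (j : ℕ) g t i) := by
    rw [← Matrix.linearIndependent_rows_iff_isUnit]
    exact hcon
  rw [Matrix.isUnit_iff_isUnit_det, isUnit_iff_ne_zero, not_not] at h1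
  obtain ⟨a, ha, ha'⟩ := Matrix.exists_mulVec_eq_zero_iff.2 h1
  have h2 : Van n (fun s => ∑ i, a i * g s i) t := by
    intro j hj
    rw [iter_apply (h.mono fun s hs => hs.1) j a]
    have h3 := congrFun ha' ⟨j, hj⟩
    simp only [Matrix.mulVec, dotProduct, Matrix.of_apply, Pi.zero_apply] at h3
    rw [← h3]
    exact Finset.sum_congr rfl fun i _ => mul_comm _ _
  have h3 := sum_le_of_total (hc a ha) {t} (by
    intro t' ht'
    rw [Finset.mem_singleton] at ht'
    rw [ht']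
    exact hD) (fun _ => n) (by
    intro t' ht'
    rw [Finset.mem_singleton] at ht'
    rw [ht']
    exact (le_ord h2).trans (le_iSup₂_of_le g h le_rfl))
  rw [Finset.sum_singleton] at h3
  omega

end Pool.Agent.GCI
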