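import Mathlib

/-!
# Determinants of bases of a subspace
-/

namespace Pool.Agent.GCI

open Matrix

/-- The determinant of the columns `v` and `x`. -/
noncomputable def dt {k m : ℕ} (v : Fin k → (Fin (k + m) → ℝ)) (x : Fin m → (Fin (k + m) → ℝ)) :
    ℝ := (Matrix.of (fun i c => Fin.append v x c i)).det

theorem dt_eq {k m : ℕ} (v : Fin k → (Fin (k + m) → ℝ)) (x : Fin m → (Fin (k + m) → ℝ)) :
    dt v x = ((Matrix.of (fun i (c : Fin k ⊕ Fin m) => Sum.elim v x c
      (finSumFinEquiv i))) : Matrix (Fin k ⊕ Fin m) (Fin k ⊕ Fin m) ℝ).det := by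
  rw [dt, ← Matrix.det_submatrix_equiv_self finSumFinEquiv]
  congr 1
  ext i c
  rcases c with c | c
  · simp [Matrix.submatrix_apply]
  · simp [Matrix.submatrix_apply]

theorem dt_mul {k m : ℕ} (v v' : Fin k → (Fin (k + m) → ℝ)) (M : Matrix (Fin k) (Fin k) ℝ)
    (h : ∀ c, v' c = ∑ i, M i c • v i) (x : Fin m → (Fin (k + m) → ℝ)) :
    dt v' x = M.det * dt v x := by
  rw [dt_eq, dt_eq]
  have h1 : ((Matrix.of (fun i (c : Fin k ⊕ Fin m) => Sum.elim v' x c
      (finSumFinEquiv i))) : Matrix (Fin k ⊕ Fin m) (Fin k ⊕ Fin m) ℝ) =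
      (Matrix.of (fun i (c : Fin k ⊕ Fin m) => Sum.elim v x c (finSumFinEquiv i))) *
        Matrix.fromBlocks M 0 0 1 := by
    ext i c
    rw [Matrix.mul_apply, Fintype.sum_sum_type]
    rcases c with c | c
    · simp only [Matrix.of_apply, Sum.elim_inl, Sum.elim_inr, Matrix.fromBlocks_apply₁₁,
        Matrix.fromBlocks_apply₂₁, h, Finset.sum_apply, Pi.smul_apply, smul_eq_mul,
        Matrix.zero_apply, mul_zero, Finset.sum_const_zero, add_zero]
      exact Finset.sum_congr rfl fun j _ => mul_comm _ _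
    · simp only [Matrix.of_apply, Sum.elim_inl, Sum.elim_inr, Matrix.fromBlocks_apply₁₂,
        Matrix.fromBlocks_apply₂₂, Matrix.zero_apply, mul_zero, Finset.sum_const_zero, zero_add,
        Matrix.one_apply, mul_ite, mul_one, Finset.sum_ite_eq', Finset.mem_univ, if_true]
  rw [h1, Matrix.det_mul, Matrix.det_fromBlocks_zero₂₁, Matrix.det_one, mul_one, mul_comm]

/-- The key identity for two families of the same span. -/
theorem dt_span {k m : ℕ} {v v' : Fin k → (Fin (k + m) → ℝ)}
    (h : Submodule.span ℝ (Set.range v') ≤ Submodule.span ℝ (Set.range v))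
    (x y : Fin m → (Fin (k + m) → ℝ)) : dt v y * dt v' x = dt v' y * dt v x := by
  have h1 : ∀ c, ∃ a : Fin k → ℝ, ∑ i, a i • v i = v' c := by
    intro c
    have h2 : v' c ∈ Submodule.span ℝ (Set.range v) := h (Submodule.subset_span ⟨c, rfl⟩)
    exact (Submodule.mem_span_range_iff_exists_fun ℝ).1 h2
  choose a ha using h1
  have h3 := fun x => dt_mul v v' (Matrix.of fun i c => a c i) (fun c => (ha c).symm) x
  rw [h3, h3]
  ring

theorem dt_ne_zero {k m : ℕ} {v : Fin k → (Fin (k + m) → ℝ)} {x : Fin m → (Fin (k + m) → ℝ)}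
    (h : LinearIndependent ℝ (Fin.append v x)) : dt v x ≠ 0 := by
  have h1 : LinearIndependent ℝ
      (Matrix.of (fun i c => Fin.append v x c i) : Matrix (Fin (k + m)) (Fin (k + m)) ℝ).col := h
  rw [Matrix.linearIndependent_cols_iff_isUnit, Matrix.isUnit_iff_isUnit_det] at h1
  exact h1.ne_zero

/-- A linearly independent family can be completed. -/
theorem exists_dt_ne_zero {k m : ℕ} {v : Fin k → (Fin (k + m) → ℝ)}
    (h : LinearIndependent ℝ v) : ∃ x : Fin m → (Fin (k + m) → ℝ), dt v x ≠ 0 := by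
  obtain ⟨W, hW⟩ := Submodule.exists_isCompl (Submodule.span ℝ (Set.range v))
  have h1 : Module.finrank ℝ W = m := by
    have h2 := Submodule.finrank_add_eq_of_isCompl hW
    rw [finrank_span_eq_card h] at h2
    simp only [Fintype.card_fin, Module.finrank_fintype_fun_eq_card] at h2
    omega
  obtain ⟨b⟩ : Nonempty (Module.Basis (Fin m) ℝ W) := ⟨Module.finBasisOfFinrankEq ℝ W h1⟩
  refine ⟨fun i => (b i : Fin (k + m) → ℝ), ?_⟩
  have h3 : LinearIndependent ℝ (fun i => (b i : Fin (k + m) → ℝ)) :=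
    b.linearIndependent.map' W.subtype (Submodule.ker_subtype W)
  have h4 : Submodule.span ℝ (Set.range (fun i => (b i : Fin (k + m) → ℝ))) ≤ W := by
    rw [Submodule.span_le]
    rintro _ ⟨i, rfl⟩
    exact (b i).2
  have h5 := h.sum_type h3 (hW.disjoint.mono_right h4)
  have h6 : LinearIndependent ℝ (Fin.append v (fun i => (b i : Fin (k + m) → ℝ))) := by
    have h7 := h5.comp finSumFinEquiv.symm finSumFinEquiv.symm.injective
    have h8 : Sum.elim v (fun i => (b i : Fin (k + m) → ℝ)) ∘ finSumFinEquiv.symm =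
        Fin.append v (fun i => (b i : Fin (k + m) → ℝ)) := by
      funext c
      obtain ⟨c, rfl⟩ := finSumFinEquiv.surjective c
      rcases c with c | c
      · simp
      · simp
    rwa [h8] at h7
  exact dt_ne_zero h6

end Pool.Agent.GCI
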