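import Mathlib
import Pool.Agent.GCI.Lin

/-!
# Curves in projective spaces and Grassmannians, multiplicities, convexity
-/

namespace Pool.Agent.GCI

open scoped ContDiff Topology LinearAlgebra.Projectivization
open Filter

/-- The order of vanishing of `f` at `t`: the greatest `μ` such that all derivatives of order
less than `μ` vanish at `t` (infinite if all derivatives vanish). -/
noncomputable def ord (f : ℝ → ℝ) (t : ℝ) : ℕ∞ :=
  ⨆ (μ : ℕ) (_ : ∀ j < μ, iteratedDeriv j f t = 0), (μ : ℕ∞)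

/-- The sum of the multiplicities `μ t` over all points `t` of `D`. -/
noncomputable def total (D : Set ℝ) (μ : ℝ → ℕ∞) : ℕ∞ :=
  ⨆ (s : Finset ℝ) (_ : ∀ t ∈ s, t ∈ D), ∑ t ∈ s, μ t

/-- `g` is a smooth lift near `t` of the curve `c`, defined on the interval `I`, in the
projective space of `ℝ ^ n`. -/
def IsLift {n : ℕ} (I : Set ℝ) (c : ℝ → ℙ ℝ (Fin n → ℝ)) (t : ℝ) (g : ℝ → (Fin n → ℝ)) : Prop :=
  ∀ᶠ s in 𝓝 t, ContDiffAt ℝ ∞ g s ∧
    (s ∈ I → ∃ h : g s ≠ 0, c s = Projectivization.mk ℝ (g s) h)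

/-- `c` is a smooth curve on the interval `I`. -/
def SmoothCurve {n : ℕ} (I : Set ℝ) (c : ℝ → ℙ ℝ (Fin n → ℝ)) : Prop :=
  ∀ t ∈ I, ∃ g, IsLift I c t g

/-- The multiplicity at `t` of the intersection of the curve with the hyperplane of the `x` with
`∑ i, a i * x i = 0`. -/
noncomputable def mult {n : ℕ} (I : Set ℝ) (c : ℝ → ℙ ℝ (Fin n → ℝ)) (a : Fin n → ℝ) (t : ℝ) :
    ℕ∞ := ⨆ (g : ℝ → (Fin n → ℝ)) (_ : IsLift I c t g), ord (fun s => ∑ i, a i * g s i) t

/-- The curve is convex: its intersections, at times in `D`, with every hyperplane have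
multiplicities with sum at most `n - 1`. -/
def Convex {n : ℕ} (I D : Set ℝ) (c : ℝ → ℙ ℝ (Fin n → ℝ)) : Prop :=
  ∀ a : Fin n → ℝ, a ≠ 0 → total D (mult I c a) ≤ ((n - 1 : ℕ) : ℕ∞)

/-- The `k`-th osculating curve: at `t`, the span of `g t`, `g' t`, ..., `g^(k-1) t` for a smooth
lift `g` near `t`. -/
noncomputable def osc {n : ℕ} (k : ℕ) (I : Set ℝ) (c : ℝ → ℙ ℝ (Fin n → ℝ)) (t : ℝ) :
    Submodule ℝ (Fin n → ℝ) :=
  ⨆ (g : ℝ → (Fin n → ℝ)) (_ : IsLift I c t g),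
    Submodule.span ℝ (Set.range fun j : Fin k => iteratedDeriv (j : ℕ) g t)

/-- `v` is a smooth local basis near `t` of the curve `Γ`, defined on the interval `I`, of
subspaces of `ℝ ^ n` of dimension `k`. -/
def IsFrame {n k : ℕ} (I : Set ℝ) (Γ : ℝ → Submodule ℝ (Fin n → ℝ)) (t : ℝ)
    (v : ℝ → Fin k → (Fin n → ℝ)) : Prop :=
  ∀ᶠ s in 𝓝 t, ContDiffAt ℝ ∞ v s ∧
    (s ∈ I → LinearIndependent ℝ (v s) ∧ Submodule.span ℝ (Set.range (v s)) = Γ s)

/-- The multiplicity at `t` of the intersection of the curve `Γ` of subspaces of dimension `k` of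
`ℝ ^ (k + m)` with the Grassmann hyperplane of the subspace with basis `ℓ`. -/
noncomputable def multG (k m : ℕ) (I : Set ℝ) (Γ : ℝ → Submodule ℝ (Fin (k + m) → ℝ))
    (ℓ : Fin m → (Fin (k + m) → ℝ)) (t : ℝ) : ℕ∞ :=
  ⨆ (v : ℝ → Fin k → (Fin (k + m) → ℝ)) (_ : IsFrame I Γ t v), ord (fun s => dt (v s) ℓ) t

/-- `Γ` is a Grassmann-convex curve of subspaces of dimension `k` of `ℝ ^ (k + m)`: near every
point of `D` it is a smooth curve in the Grassmannian, and its intersections, at times in `D`,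
with every Grassmann hyperplane have multiplicities with sum at most `k m`. -/
def GrassmannConvex (k m : ℕ) (I D : Set ℝ) (Γ : ℝ → Submodule ℝ (Fin (k + m) → ℝ)) : Prop :=
  (∀ t ∈ D, ∃ v : ℝ → Fin k → (Fin (k + m) → ℝ), IsFrame I Γ t v) ∧
    ∀ ℓ : Fin m → (Fin (k + m) → ℝ), LinearIndependent ℝ ℓ →
      total D (multG k m I Γ ℓ) ≤ ((k * m : ℕ) : ℕ∞)

end Pool.Agent.GCI
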