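import Pool.Agent.GCI.Glue

/-!
# A global smooth lift near a compact interval, second part
-/

namespace Pool.Agent.GCI

open scoped ContDiff Topology LinearAlgebra.Projectivization
open Filter

variable {n : ℕ} {I : Set ℝ} {c : ℝ → ℙ ℝ (Fin n → ℝ)}

/-- Gluing two unit lifts. -/
theorem glue (hI : I.OrdConnected) {a y z x ε : ℝ} {γ g : ℝ → (Fin n → ℝ)} (ha : a ∈ I)
    (hz : z ∈ I) (hay : a ≤ y) (hyz : y ≤ z)
    (hγ : ∀ t ∈ Set.Icc a y, ULift I c t γ) (hg : ∀ t, |t - x| < ε → ULift I c t g)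
    (hy' : |y - x| < ε) (hz' : |z - x| < ε) :
    ∃ γ' : ℝ → (Fin n → ℝ), ∀ t ∈ Set.Icc a z, ULift I c t γ' := by
  rw [abs_lt] at hy' hz'
  have hmid : ∀ t, y ≤ t → t ≤ z → |t - x| < ε := by
    intro t h1 h2
    rw [abs_lt]
    constructor <;> linarith
  rcases eq_or_lt_of_le hyz with rfl | hyz
  · exact ⟨γ, hγ⟩
  rcases eq_or_lt_of_le hay with rfl | hay
  · exact ⟨g, fun t ht => hg t (hmid t ht.1 ht.2)⟩
  have hyI : I ∈ 𝓝 y := by
    refine mem_of_superset (Ioo_mem_nhds hay hyz) ?_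
    intro s hs
    exact hI.out ha hz ⟨hs.1.le, hs.2.le⟩
  have h1 : ULift I c y γ := hγ y ⟨hay.le, le_rfl⟩
  have h2 : ULift I c y g := hg y (hmid y le_rfl hyz.le)
  obtain ⟨σ, hσ, he⟩ := exists_sign hyI h2 h1
  refine ⟨fun s => if s < y then γ s else σ • g s, fun t ht => ?_⟩
  rcases lt_trichotomy t y with h | h | h
  · refine (hγ t ⟨ht.1, h.le⟩).congr ?_
    filter_upwards [Iio_mem_nhds h] with s hs
    exact if_pos hs
  · subst h
    refine h1.congr ?_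
    filter_upwards [he] with s hs
    by_cases h3 : s < t
    · exact if_pos h3
    · rw [if_neg h3, hs]
  · refine ((hg t (hmid t h.le ht.2)).sign hσ).congr ?_
    filter_upwards [Ioi_mem_nhds h] with s hs
    exact if_neg (not_lt.2 (le_of_lt hs))

theorem exists_ulift_Icc (hI : I.OrdConnected) (hc : SmoothCurve I c) {a b : ℝ} (hab : a ≤ b)
    (ha : a ∈ I) (hb : b ∈ I) :
    ∃ γ : ℝ → (Fin n → ℝ), ∀ t ∈ Set.Icc a b, ULift I c t γ := by
  have hloc : ∀ x ∈ Set.Icc a b, ∃ (ε : ℝ) (g : ℝ → (Fin n → ℝ)), 0 < ε ∧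
      ∀ t, |t - x| < ε → ULift I c t g := by
    intro x hx
    have hxI : x ∈ I := hI.out ha hb hx
    obtain ⟨g, hg⟩ := hc x hxI
    obtain ⟨g', hg'⟩ := exists_ulift hxI hg
    have h1 := hg'.nhds
    rw [Metric.eventually_nhds_iff] at h1
    obtain ⟨ε, hε, h2⟩ := h1
    exact ⟨ε, g', hε, fun t ht => h2 (by rwa [Real.dist_eq])⟩
  obtain ⟨P, hP⟩ : ∃ P : ℝ → Prop, ∀ x, P x ↔
      ∃ γ : ℝ → (Fin n → ℝ), ∀ t ∈ Set.Icc a x, ULift I c t γ := ⟨_, fun _ => Iff.rfl⟩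
  obtain ⟨S, hS⟩ : ∃ S : Set ℝ, S = {x | x ∈ Set.Icc a b ∧ P x} := ⟨_, rfl⟩
  have haS : a ∈ S := by
    rw [hS]
    refine ⟨⟨le_rfl, hab⟩, ?_⟩
    rw [hP]
    obtain ⟨ε, g, hε, hg⟩ := hloc a ⟨le_rfl, hab⟩
    refine ⟨g, fun t ht => hg t ?_⟩
    have h1 : t = a := le_antisymm ht.2 ht.1
    rw [h1, sub_self, abs_zero]
    exact hε
  have hbdd : BddAbove S := ⟨b, fun x hx => by
    rw [hS] at hx
    exact hx.1.2⟩
  have hx0 : sSup S ∈ Set.Icc a b :=
    ⟨le_csSup hbdd haS, csSup_le ⟨a, haS⟩ fun x hx => by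
      rw [hS] at hx
      exact hx.1.2⟩
  obtain ⟨ε, g, hε, hg⟩ := hloc _ hx0
  obtain ⟨y, hy, hy'⟩ := exists_lt_of_lt_csSup ⟨a, haS⟩ (sub_lt_self (sSup S) hε)
  have hyS : y ≤ sSup S := le_csSup hbdd hy
  rw [hS] at hy
  obtain ⟨hy1, hy2⟩ := hy
  rw [hP] at hy2
  obtain ⟨γ, hγ⟩ := hy2
  obtain ⟨z, hz⟩ : ∃ z, z = min b (sSup S + ε / 2) := ⟨_, rfl⟩
  have hyz : y ≤ z := by
    rw [hz, le_min_iff]
    exact ⟨hy1.2, by linarith⟩
  have hzb : z ≤ b := by
    rw [hz]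
    exact min_le_left _ _
  have hzI : z ∈ I := hI.out ha hb ⟨hy1.1.trans hyz, hzb⟩
  have h1 : |y - sSup S| < ε := by
    rw [abs_lt]
    constructor <;> linarith
  have h2 : |z - sSup S| < ε := by
    have h3 : z ≤ sSup S + ε / 2 := by
      rw [hz]
      exact min_le_right _ _
    rw [abs_lt]
    constructor <;> linarith
  obtain ⟨γ', hγ'⟩ := glue hI ha hzI hy1.1 hyz hγ hg h1 h2
  have hzS : z ∈ S := by
    rw [hS]
    refine ⟨⟨hy1.1.trans hyz, hzb⟩, ?_⟩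
    rw [hP]
    exact ⟨γ', hγ'⟩
  have h3 : z ≤ sSup S := le_csSup hbdd hzS
  have h4 : z = b := by
    rw [hz]
    apply min_eq_left
    by_contra h5
    push Not at h5
    rw [hz, min_eq_right h5.le] at h3
    linarith
  rw [h4] at hγ'
  exact ⟨γ', hγ'⟩

/-- A globally smooth function which is a lift near a compact interval. -/
theorem exists_global (hI : I.OrdConnected) (hc : SmoothCurve I c) {a b : ℝ} (hab : a ≤ b)
    (ha : a ∈ I) (hb : b ∈ I) :
    ∃ γ : ℝ → (Fin n → ℝ), ContDiff ℝ ∞ γ ∧ ∀ t ∈ Set.Icc a b, IsLift I c t γ := by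
  obtain ⟨γ, hγ⟩ := exists_ulift_Icc hI hc hab ha hb
  obtain ⟨W, hW⟩ : ∃ W : Set ℝ, W = {t | ∀ᶠ s in 𝓝 t, ContDiffAt ℝ ∞ γ s} := ⟨_, rfl⟩
  have hWo : IsOpen W := by
    rw [isOpen_iff_mem_nhds]
    intro t ht
    rw [hW] at ht ⊢
    exact ht.eventually_nhds
  have hsub : Set.Icc a b ⊆ W := by
    intro t ht
    rw [hW]
    exact (hγ t ht).1.mono fun s hs => hs.1
  obtain ⟨δ, hδ, hδW⟩ := isCompact_Icc.exists_cthickening_subset_open hWo hsub
  have hthick : ∀ t, a - δ ≤ t → t ≤ b + δ → t ∈ W := by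
    intro t h1 h2
    apply hδW
    refine Metric.mem_cthickening_of_dist_le t (max a (min t b)) δ _
      ⟨le_max_left _ _, max_le hab (min_le_right _ _)⟩ ?_
    rw [Real.dist_eq, abs_le]
    rcases le_total t b with h3 | h3
    · rw [min_eq_left h3]
      rcases le_total a t with h4 | h4
      · rw [max_eq_right h4]
        constructor <;> linarith
      · rw [max_eq_left h4]
        constructor <;> linarith
    · rw [min_eq_right h3, max_eq_right hab]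
      constructor <;> linarith
  obtain ⟨χ, hχ1, hχ2, hχ3⟩ : ∃ χ : ℝ → ℝ, ContDiff ℝ ∞ χ ∧
      (∀ t, |t - (a + b) / 2| ≤ (b - a) / 2 + δ / 3 → χ t = 1) ∧
      ∀ t, (b - a) / 2 + 2 * δ / 3 < |t - (a + b) / 2| → χ =ᶠ[𝓝 t] 0 := by
    obtain ⟨f, hf1, hf2⟩ : ∃ f : ContDiffBump ((a + b) / 2 : ℝ),
        f.rIn = (b - a) / 2 + δ / 3 ∧ f.rOut = (b - a) / 2 + 2 * δ / 3 :=
      ⟨⟨(b - a) / 2 + δ / 3, (b - a) / 2 + 2 * δ / 3, by linarith, by linarith⟩, rfl, rfl⟩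
    refine ⟨f, f.contDiff, fun t ht => ?_, fun t ht => ?_⟩
    · apply f.one_of_mem_closedBall
      rw [Metric.mem_closedBall, Real.dist_eq, hf1]
      exact ht
    · rw [← notMem_tsupport_iff_eventuallyEq, f.tsupport_eq, Metric.mem_closedBall, Real.dist_eq,
        hf2, not_le]
      exact ht
  refine ⟨fun s => χ s • γ s, ?_, fun t ht => ?_⟩
  · rw [contDiff_iff_contDiffAt]
    intro t
    rcases le_or_gt |t - (a + b) / 2| ((b - a) / 2 + 2 * δ / 3) with h1 | h1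
    · rw [abs_le] at h1
      have h2 : t ∈ W := hthick t (by linarith) (by linarith)
      rw [hW] at h2
      exact hχ1.contDiffAt.smul h2.self_of_nhds
    · have h2 : (fun s => χ s • γ s) =ᶠ[𝓝 t] fun _ => 0 := by
        filter_upwards [hχ3 t h1] with s hs
        rw [hs, Pi.zero_apply, zero_smul]
      exact contDiffAt_const.congr_of_eventuallyEq h2
  · refine (hγ t ht).1.congr ?_
    filter_upwards [Metric.ball_mem_nhds t (by linarith : 0 < δ / 3)] with s hs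
    rw [Metric.mem_ball, Real.dist_eq, abs_lt] at hs
    have h1 : χ s = 1 := by
      apply hχ2
      rw [abs_le]
      constructor <;> linarith [ht.1, ht.2, hs.1, hs.2]
    rw [h1, one_smul]

end Pool.Agent.GCI
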