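import Pool.Agent.GCI.Basic

/-!
# A global smooth lift near a compact interval
-/

namespace Pool.Agent.GCI

open scoped ContDiff Topology LinearAlgebra.Projectivization
open Filter

variable {n : ℕ} {I : Set ℝ} {c : ℝ → ℙ ℝ (Fin n → ℝ)} {t : ℝ} {g g' : ℝ → (Fin n → ℝ)}

theorem IsLift.congr (h : IsLift I c t g) (he : g' =ᶠ[𝓝 t] g) : IsLift I c t g' := by
  unfold IsLift at h ⊢
  filter_upwards [h, he.eventually_nhds] with s hs hs'
  refine ⟨hs.1.congr_of_eventuallyEq hs', fun hsI => ?_⟩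
  have h1 : g' s = g s := hs'.self_of_nhds
  rw [h1]
  exact hs.2 hsI

theorem IsLift.smul (h : IsLift I c t g) (φ : ℝ → ℝ)
    (hφ : ∀ᶠ s in 𝓝 t, ContDiffAt ℝ ∞ φ s ∧ φ s ≠ 0) : IsLift I c t (fun s => φ s • g s) := by
  unfold IsLift at h ⊢
  filter_upwards [h, hφ] with s hs hs'
  refine ⟨hs'.1.smul hs.1, fun hsI => ?_⟩
  obtain ⟨h1, h2⟩ := hs.2 hsI
  refine ⟨smul_ne_zero hs'.2 h1, ?_⟩
  rw [h2, Projectivization.mk_eq_mk_iff']
  exact ⟨(φ s)⁻¹, by rw [smul_smul, inv_mul_cancel₀ hs'.2, one_smul]⟩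

/-- A lift of unit vectors. -/
def ULift (I : Set ℝ) (c : ℝ → ℙ ℝ (Fin n → ℝ)) (t : ℝ) (g : ℝ → (Fin n → ℝ)) : Prop :=
  IsLift I c t g ∧ ∀ᶠ s in 𝓝 t, ∑ i, g s i * g s i = 1

theorem exists_ulift (ht : t ∈ I) (h : IsLift I c t g) : ∃ g', ULift I c t g' := by
  obtain ⟨N, hN⟩ : ∃ N : ℝ → ℝ, ∀ s, N s = ∑ i, g s i * g s i := ⟨_, fun _ => rfl⟩
  have hN' : N = fun s => ∑ i, g s i * g s i := funext hN
  have hN0 : N t ≠ 0 := by
    rw [hN]
    intro h0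
    apply h.ne ht
    have h1 := (Finset.sum_eq_zero_iff_of_nonneg
      (fun i _ => mul_self_nonneg (g t i))).1 h0
    funext i
    exact mul_self_eq_zero.1 (h1 i (Finset.mem_univ i))
  have hNs : ∀ s, ContDiffAt ℝ ∞ g s → ContDiffAt ℝ ∞ N s := by
    intro s hs
    rw [hN']
    exact ContDiffAt.sum fun i _ => (contDiffAt_pi.1 hs i).mul (contDiffAt_pi.1 hs i)
  have hNp : ∀ s, 0 ≤ N s := by
    intro s
    rw [hN]
    exact Finset.sum_nonneg fun i _ => mul_self_nonneg _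
  have hev : ∀ᶠ s in 𝓝 t, N s ≠ 0 := (hNs t h.smooth).continuousAt.eventually_ne hN0
  refine ⟨fun s => (Real.sqrt (N s))⁻¹ • g s, h.smul _ ?_, ?_⟩
  · filter_upwards [h, hev] with s hs hs'
    have h1 : Real.sqrt (N s) ≠ 0 := by
      rw [Real.sqrt_ne_zero (hNp s)]
      exact hs'
    exact ⟨((hNs s hs.1).sqrt hs').inv h1, inv_ne_zero h1⟩
  · filter_upwards [hev] with s hs
    have h1 : Real.sqrt (N s) * Real.sqrt (N s) = N s := Real.mul_self_sqrt (hNp s)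
    have h2 : Real.sqrt (N s) ≠ 0 := by
      rw [Real.sqrt_ne_zero (hNp s)]
      exact hs
    have h3 : ∑ i, ((Real.sqrt (N s))⁻¹ • g s) i * ((Real.sqrt (N s))⁻¹ • g s) i =
        (Real.sqrt (N s))⁻¹ * (Real.sqrt (N s))⁻¹ * N s := by
      rw [hN, Finset.mul_sum]
      refine Finset.sum_congr rfl fun i _ => ?_
      simp only [Pi.smul_apply, smul_eq_mul]
      ring
    show ∑ i, ((Real.sqrt (N s))⁻¹ • g s) i * ((Real.sqrt (N s))⁻¹ • g s) i = 1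
    rw [h3]
    calc (Real.sqrt (N s))⁻¹ * (Real.sqrt (N s))⁻¹ * N s
        = (Real.sqrt (N s))⁻¹ * (Real.sqrt (N s))⁻¹ * (Real.sqrt (N s) * Real.sqrt (N s)) := by
          rw [h1]
      _ = ((Real.sqrt (N s))⁻¹ * Real.sqrt (N s)) * ((Real.sqrt (N s))⁻¹ * Real.sqrt (N s)) := by
          ring
      _ = 1 := by rw [inv_mul_cancel₀ h2, mul_one]

/-- Two unit lifts near an interior point differ by a sign. -/
theorem exists_sign (hI : I ∈ 𝓝 t) (h : ULift I c t g) (h' : ULift I c t g') :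
    ∃ σ : ℝ, (σ = 1 ∨ σ = -1) ∧ g' =ᶠ[𝓝 t] fun s => σ • g s := by
  obtain ⟨φ, hφ1, hφ2⟩ : ∃ φ : ℝ → ℝ, ContDiffAt ℝ ∞ φ t ∧
      ∀ᶠ s in 𝓝 t, s ∈ I → g' s = φ s • g s := by
    obtain ⟨φ, h1, _, h2⟩ := exists_factor (mem_of_mem_nhds hI) h.1 h'.1
    exact ⟨φ, h1, h2⟩
  have h1 : ∀ᶠ s in 𝓝 t, g' s = φ s • g s ∧ (φ s = 1 ∨ φ s = -1) := by
    filter_upwards [hφ2, hI, h.2, h'.2] with s hs hsI hs1 hs2
    have h2 := hs hsI
    refine ⟨h2, ?_⟩
    rw [h2] at hs2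
    have h3 : φ s * φ s = 1 := by
      rw [← hs2]
      have h4 : ∑ i, (φ s • g s) i * (φ s • g s) i = φ s * φ s * ∑ i, g s i * g s i := by
        rw [Finset.mul_sum]
        refine Finset.sum_congr rfl fun i _ => ?_
        simp only [Pi.smul_apply, smul_eq_mul]
        ring
      rw [h4, hs1, mul_one]
    exact mul_self_eq_one_iff.1 h3
  refine ⟨φ t, h1.self_of_nhds.2, ?_⟩
  have h2 : ∀ᶠ s in 𝓝 t, |φ s - φ t| < 1 := by
    have h3 := hφ1.continuousAt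
    rw [Metric.continuousAt_iff] at h3
    obtain ⟨δ, hδ, h4⟩ := h3 1 one_pos
    filter_upwards [Metric.ball_mem_nhds t hδ] with s hs
    have h5 := h4 hs
    rwa [Real.dist_eq] at h5
  filter_upwards [h1, h2] with s hs hs'
  rw [hs.1]
  congr 1
  rw [abs_lt] at hs'
  rcases hs.2 with h5 | h5 <;> rcases h1.self_of_nhds.2 with h6 | h6 <;>
    rw [h5, h6] <;> rw [h5, h6] at hs' <;> norm_num at hs'

theorem ULift.congr (h : ULift I c t g) (he : g' =ᶠ[𝓝 t] g) : ULift I c t g' := by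
  refine ⟨h.1.congr he, ?_⟩
  filter_upwards [h.2, he] with s hs hs'
  rw [hs', hs]

theorem ULift.sign (h : ULift I c t g) {σ : ℝ} (hσ : σ = 1 ∨ σ = -1) :
    ULift I c t (fun s => σ • g s) := by
  have hσ0 : σ ≠ 0 := by
    rcases hσ with rfl | rfl <;> norm_num
  refine ⟨h.1.smul (fun _ => σ) (Eventually.of_forall fun s => ⟨contDiffAt_const, hσ0⟩), ?_⟩
  filter_upwards [h.2] with s hs
  have h1 : σ * σ = 1 := by
    rcases hσ with rfl | rfl <;> norm_num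
  have h2 : ∑ i, (σ • g s) i * (σ • g s) i = σ * σ * ∑ i, g s i * g s i := by
    rw [Finset.mul_sum]
    refine Finset.sum_congr rfl fun i _ => ?_
    simp only [Pi.smul_apply, smul_eq_mul]
    ring
  rw [h2, h1, hs, mul_one]

theorem ULift.nhds (h : ULift I c t g) : ∀ᶠ s in 𝓝 t, ULift I c s g := by
  filter_upwards [h.1.nhds, h.2.eventually_nhds] with s hs hs'
  exact ⟨hs, hs'⟩

end Pool.Agent.GCI
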