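import Pool.Agent.GCI.Global
import Pool.Agent.GC18.Assemble
import Pool.Agent.GC18.Bdd
import Pool.Agent.GC18.Closing
import Pool.Agent.GC18.Cluster
import Pool.Agent.GC18.Count
import Pool.Agent.GC18.E1
import Pool.Agent.GC18.E2
import Pool.Agent.GC18.E3
import Pool.Agent.GC18.Eps
import Pool.Agent.GC18.FinAlgCpt
import Pool.Agent.GC18.Hur
import Pool.Agent.GC18.LemL
import Pool.Agent.GC18.Lim
import Pool.Agent.GC18.P1
import Pool.Agent.GC18.Poly
import Pool.Agent.GC18.Rich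
import Pool.Agent.GC18.StEch
import Pool.Agent.GC18.StJ
import Pool.Agent.GC18.StYJ
import Pool.Agent.GC18.Start
import Pool.Agent.GC18.TheoremT
import Pool.Agent.GC18.Top

/-!
# Grassmann convexity of the osculating curves of convex projective curves
-/

namespace Pool.Agent.GCI

open scoped ContDiff Topology LinearAlgebra.Projectivization
open Filter

open Pool.Agent.GC18 in
theorem grass_all : ∀ (w : ℕ → ℝ → ℝ) (T : ℝ), Wt w T → ∀ (m k : ℕ), 1 ≤ m → 1 ≤ k →
    GProp w m k := by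
  have hLim : S_Lim := Lim Cpt Hur LemL
  have hEps : S_Eps := Eps ExGood (E2 E1)
  have hStart : S_Start := Start (St.StJ St.StEch St.StYJ)
  have hT : S_T := TheoremT hEps hStart FinAlg (Bdd Cpt) BR trick
  have hP1 : S_P1 := Pool.Agent.GC18.P1 Persist
  have hE : S_Exch := Exch hP1 FIN
  have hC : S_Close := Close hT hE hLim Rich
  exact GProp_all G0 (Open hLim) hC

/-- The theorem for a global lift. -/
theorem lifted : ∀ k m : ℕ, 1 ≤ k → 1 ≤ m →
  ∀ J : Set ℝ, ∀ γ : ℝ → (Fin (k + m) → ℝ),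
    ContDiff ℝ (⊤ : ℕ∞) γ →
    J.OrdConnected →
    (∀ t ∈ J, γ t ≠ 0) →
    (∀ a : Fin (k + m) → ℝ, a ≠ 0 →
      ∀ (s : Finset ℝ) (μ : ℝ → ℕ),
        (∀ t ∈ s, t ∈ J ∧ ∀ j < μ t,
          iteratedDeriv j (fun u => ∑ i, a i * γ u i) t = 0) →
        ∑ t ∈ s, μ t ≤ k + m - 1) →
    ∀ ℓ : Fin m → (Fin (k + m) → ℝ), LinearIndependent ℝ ℓ →
      ∀ (s : Finset ℝ) (μ : ℝ → ℕ),
        (∀ t ∈ s, t ∈ J ∧ ∀ j < μ t,
          iteratedDeriv j
            (fun u => (Matrix.of (fun i c =>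
              Fin.append (fun a : Fin k => iteratedDeriv (a : ℕ) γ u) ℓ c i)).det) t = 0) →
        ∑ t ∈ s, μ t ≤ k * m := by
  exact Pool.Agent.GC18.Top Pool.Agent.GC18.Hur grass_all

theorem indep_of_dt {k m : ℕ} {v : Fin k → (Fin (k + m) → ℝ)} {x : Fin m → (Fin (k + m) → ℝ)}
    (h : dt v x ≠ 0) : LinearIndependent ℝ v := by
  have h1 : LinearIndependent ℝ
      (Matrix.of (fun i c => Fin.append v x c i) : Matrix (Fin (k + m)) (Fin (k + m)) ℝ).col := by
    rw [Matrix.linearIndependent_cols_iff_isUnit, Matrix.isUnit_iff_isUnit_det]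
    exact isUnit_iff_ne_zero.2 h
  have h2 : LinearIndependent ℝ (Fin.append v x) := h1
  have h3 := h2.comp (Fin.castAdd m) (Fin.castAdd_injective k m)
  have h4 : Fin.append v x ∘ Fin.castAdd m = v := by
    funext i
    exact Fin.append_left v x i
  rwa [h4] at h3

theorem smooth_derivs {n k : ℕ} {g : ℝ → (Fin n → ℝ)} {t : ℝ} (h : ContDiffAt ℝ ∞ g t) :
    ContDiffAt ℝ ∞ (fun s => fun j : Fin k => iteratedDeriv (j : ℕ) g s) t := by
  rw [contDiffAt_pi]
  intro j
  exact smooth_iter h j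

theorem main {k m : ℕ} (hk : 1 ≤ k) (hm : 1 ≤ m) {I D : Set ℝ} (hI : I.OrdConnected)
    (hI' : I.Nontrivial) (hD : D.OrdConnected) (hDI : D ⊆ I) {c : ℝ → ℙ ℝ (Fin (k + m) → ℝ)}
    (hc : SmoothCurve I c) (hconv : Convex I D c) : GrassmannConvex k m I D (osc k I c) := by
  constructor
  · intro t ht
    obtain ⟨g, hg⟩ := hc t (hDI ht)
    refine ⟨fun s => fun j : Fin k => iteratedDeriv (j : ℕ) g s, ?_⟩
    have h1 : LinearIndependent ℝ (fun j : Fin k => iteratedDeriv (j : ℕ) g t) := by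
      have h2 := (hconv.indep (by omega) ht hg).comp (Fin.castAdd m) (Fin.castAdd_injective k m)
      exact h2
    obtain ⟨x, hx⟩ := exists_dt_ne_zero h1
    have h3 : ∀ᶠ s in 𝓝 t, dt (fun j : Fin k => iteratedDeriv (j : ℕ) g s) x ≠ 0 :=
      (smooth_dt (smooth_derivs hg.smooth) x).continuousAt.eventually_ne hx
    unfold IsFrame
    filter_upwards [h3, hg.nhds] with s hs hs'
    refine ⟨smooth_derivs hs'.smooth, fun hsI => ⟨indep_of_dt hs, ?_⟩⟩
    exact (osc_eq hI hI' hsI hs' k).symm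
  · intro ℓ hℓ
    apply total_le
    intro s μ hs hμ
    rcases s.eq_empty_or_nonempty with rfl | hne
    · simp
    have ha : s.min' hne ∈ D := hs _ (s.min'_mem hne)
    have hb : s.max' hne ∈ D := hs _ (s.max'_mem hne)
    obtain ⟨γ, hγ, hγ'⟩ := exists_global hI hc (s.min'_le_max' hne) (hDI ha) (hDI hb)
    have hJD : Set.Icc (s.min' hne) (s.max' hne) ⊆ D := hD.out ha hb
    have hmem : ∀ t ∈ s, t ∈ Set.Icc (s.min' hne) (s.max' hne) :=
      fun t ht => ⟨s.min'_le t ht, s.le_max' t ht⟩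
    refine lifted k m hk hm (Set.Icc (s.min' hne) (s.max' hne)) γ hγ Set.ordConnected_Icc
      (fun t ht => (hγ' t ht).ne (hDI (hJD ht))) ?_ ℓ hℓ s μ ?_
    · intro a ha s' μ' h'
      refine sum_le_of_total (hconv a ha) s' (fun t ht => hJD (h' t ht).1) μ' fun t ht => ?_
      exact (le_ord (h' t ht).2).trans (le_iSup₂_of_le γ (hγ' t (h' t ht).1) le_rfl)
    · intro t ht
      refine ⟨hmem t ht, ?_⟩
      rcases Nat.eq_zero_or_pos (μ t) with h0 | h0
      · intro j hj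
        omega
      obtain ⟨v, hv, hv'⟩ := exists_of_le_iSup h0 (hμ t ht)
      have hvan := van_of_le_ord hv'
      have htI : t ∈ I := hDI (hs t ht)
      have hvt := hv.self_of_nhds
      obtain ⟨x, hx⟩ := exists_dt_ne_zero (hvt.2 htI).1
      have hsm : ContDiffAt ℝ ∞ (fun s => fun j : Fin k => iteratedDeriv (j : ℕ) γ s) t :=
        smooth_derivs hγ.contDiffAt
      refine hvan.transfer hI hI' htI (smooth_dt hsm ℓ) (smooth_dt hvt.1 ℓ) (smooth_dt hvt.1 x)
        (smooth_dt hsm x) hx ?_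
      filter_upwards [hv, (hγ' t (hmem t ht)).nhds] with u hu hu' huI
      apply dt_span
      rw [← osc_eq hI hI' huI hu' k, (hu.2 huI).2]

end Pool.Agent.GCI
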