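import Pool.Agent.GCI.Basic

/-!
# The multiplicities do not depend on the lifts and the frames
-/

namespace Pool.Agent.GCI

open scoped ContDiff Topology LinearAlgebra.Projectivization
open Filter

theorem ord_le_of_van {f g : ℝ → ℝ} {t : ℝ} (h : ∀ μ : ℕ, Van μ f t → Van μ g t) :
    ord f t ≤ ord g t :=
  iSup₂_le fun μ hμ => le_ord (h μ hμ)

/-- The multiplicity of the intersection with a hyperplane is the order of vanishing for any lift. -/
theorem mult_eq_ord {n : ℕ} {I : Set ℝ} (hI : I.OrdConnected) (hI' : I.Nontrivial)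
    {c : ℝ → ℙ ℝ (Fin n → ℝ)} {t : ℝ} (ht : t ∈ I) {g : ℝ → (Fin n → ℝ)} (h : IsLift I c t g)
    (a : Fin n → ℝ) : mult I c a t = ord (fun s => ∑ i, a i * g s i) t := by
  have hs : ∀ g : ℝ → (Fin n → ℝ), IsLift I c t g →
      ContDiffAt ℝ ∞ (fun s => ∑ i, a i * g s i) t := fun g hg =>
    ContDiffAt.sum fun i _ => contDiffAt_const.mul (contDiffAt_pi.1 hg.smooth i)
  refine le_antisymm (iSup₂_le fun g' h' => ord_le_of_van fun μ hμ => ?_)
    (le_iSup₂_of_le g h le_rfl)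
  obtain ⟨φ, hφ, _, he⟩ := exists_factor ht h' h
  refine hμ.transfer hI hI' ht (hs g h) (hs g' h') (contDiffAt_const (c := (1 : ℝ))) hφ
    one_ne_zero ?_
  filter_upwards [he] with s hs hsI
  rw [hs hsI, one_mul, Finset.mul_sum]
  refine Finset.sum_congr rfl fun i _ => ?_
  rw [Pi.smul_apply, smul_eq_mul]
  ring

/-- The multiplicity of the intersection with a Grassmann hyperplane is the order of vanishing for
any local basis. -/
theorem multG_eq_ord {k m : ℕ} {I : Set ℝ} (hI : I.OrdConnected) (hI' : I.Nontrivial)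
    {Γ : ℝ → Submodule ℝ (Fin (k + m) → ℝ)} {t : ℝ} (ht : t ∈ I)
    {v : ℝ → Fin k → (Fin (k + m) → ℝ)} (h : IsFrame I Γ t v) (ℓ : Fin m → (Fin (k + m) → ℝ)) :
    multG k m I Γ ℓ t = ord (fun s => dt (v s) ℓ) t := by
  refine le_antisymm (iSup₂_le fun v' h' => ord_le_of_van fun μ hμ => ?_)
    (le_iSup₂_of_le v h le_rfl)
  obtain ⟨x, hx⟩ := exists_dt_ne_zero (h'.self_of_nhds.2 ht).1
  refine hμ.transfer hI hI' ht (smooth_dt h.self_of_nhds.1 ℓ) (smooth_dt h'.self_of_nhds.1 ℓ)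
    (smooth_dt h'.self_of_nhds.1 x) (smooth_dt h.self_of_nhds.1 x) hx ?_
  filter_upwards [h, h'] with s hs hs' hsI
  apply dt_span
  rw [(hs.2 hsI).2, (hs'.2 hsI).2]

end Pool.Agent.GCI
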